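import Pool.Agent.H.MP_8220a0_an.D

open Real MeasureTheory

namespace Pool.Agent.Results.MP_8220a0_an.NotSharp

def TrigPoly (n : ℕ) : Submodule ℝ (ℝ → ℝ) :=
  Submodule.span ℝ {f | ∃ m : ℕ, m ≤ n ∧ (f = (fun θ => cos (m * θ)) ∨ f = fun θ => sin (m * θ))}

def HasQuad (W : ℝ → ℝ) (n N : ℕ) : Prop :=
  ∃ θ : Fin N → ℝ, Monotone θ ∧ ∃ l : ℝ, ∀ p ∈ TrigPoly n,
    ∫ t in (-π)..π, p t * W t = l * ∑ i, p (θ i)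

theorem result : ∃ W : ℝ → ℝ, (∀ θ, 0 ≤ W θ) ∧ Function.Periodic W (2 * π) ∧ Measurable W ∧
    IntervalIntegrable W volume (-π) π ∧ 0 < ∫ θ in (-π)..π, W θ ∧ (∀ᵐ θ, W θ ≠ 0) ∧
    ∀ c > 0, ∀ n₀ : ℕ, ∃ n ≥ n₀, ∃ N₁ : ℕ, (∀ N ≥ N₁, HasQuad W n N) ∧
      ∃ p ∈ TrigPoly n, (∀ θ, 0 ≤ p θ) ∧ p ≠ 0 ∧ 0 < ∫ θ in (-π)..π, p θ * W θ ∧
        (N₁ : ℝ) < c * ((∫ θ in (-π)..π, W θ) / 2 *
          ((∫ θ in (-π)..π, |deriv p θ|) / ∫ θ in (-π)..π, p θ * W θ)) := by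
  obtain ⟨η, h, hm⟩ := Pool.Agent.H.MP_8220a0_an.main
  exact ⟨_, h.nonneg, Pool.Agent.H.MP_8220a0_an.W_per η, h.meas, h.ii, by
    rw [h.mass]; exact mul_pos pi_pos (by linarith [h.II_one.1]), h.ae, hm⟩

end Pool.Agent.Results.MP_8220a0_an.NotSharp
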